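import Pool.Agent.Forc.Loew
import Pool.Agent.GL.Gch
import Pool.Agent.SigB.ZF
import Pool.Agent.Frc.Zfc

/-!
# Well-founded models of ZFC

A countable well-founded model of ZFC in which every set is constructible exists; forcing
extensions of well-founded models are well-founded; the natural numbers of a well-founded model
are the true ones.
-/

universe u

set_option linter.unusedSectionVars false

namespace Pool.Agent.WfM

open Pool.Agent.SigB

/-- The membership relation of the structure is well-founded. -/
def Wfm (M : Type u) [Membership M M] : Prop := WellFounded fun x y : M => x ∈ y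

theorem wfm_zfset : Wfm ZFSet.{u} := ZFSet.mem_wf

theorem wfm_sub {M : Type u} [Membership M M] (h : Wfm M) (S : Set M) :
    @Wfm S (Forc.subMem S) := InvImage.wf Subtype.val h

theorem wfm_LM {M : Type u} [Membership M M] [GL.IsZF M] (h : Wfm M) : Wfm (GL.LM M) :=
  InvImage.wf Subtype.val h

/-- There is a countable well-founded model of ZFC in which every set is constructible. -/
theorem exists_wfL : ∃ (N : Type (u + 1)) (_ : Membership N N) (_ : IsZFC N),
    Countable N ∧ Wfm N ∧ GL.AllL N := by
  have hne : Nonempty ZFSet.{u} := ⟨∅⟩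
  obtain ⟨S, hc, -, hS⟩ := Forc.exists_full (M := ZFSet.{u})
  let inst : Membership S S := Forc.subMem S
  have h1 : IsZFC S := Forc.transferZ (M := ZFSet.{u}) (M₀ := S) (j := Subtype.val)
    (fun {p₀ p} h => hS.closed h)
  have hz : GL.IsZF (GL.LM S) := GL.isZF_LM
  have hA : GL.AllL (GL.LM S) := GL.allL_LM
  have hcS : Countable S := hc.to_subtype
  have hcL : Countable (GL.LM S) := by
    unfold GL.LM
    infer_instance
  exact ⟨GL.LM S, inferInstance, GL.isZFC_of_allL hA, hcL, wfm_LM (wfm_sub wfm_zfset S), hA⟩

section Ext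

variable {M : Type u} [Membership M M] [IsZFC M] {P le one : M} {G : M → Prop} {N : Type u}
  [Membership N N] {val : M → N}

/-- A forcing extension of a well-founded model is well-founded. -/
theorem wfm_ext (hE : Frc.Ext P le one G val) (h : Wfm M) : Wfm N := by
  have key : ∀ x : M, Acc (fun x y : N => x ∈ y) (val x) := by
    intro x
    induction x using (WellFounded.transGen h).induction with
    | _ x ih =>
      refine ⟨_, fun z hz => ?_⟩
      obtain ⟨y, p, hyp, -, rfl⟩ := hE.mem_val.1 hz
      refine ih y ?_
      have h1 : y ∈ pr y y := mem_pr.2 (Or.inl rfl)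
      have h2 : pr y y ∈ op y p := by
        unfold op
        exact mem_pr.2 (Or.inl rfl)
      exact ((Relation.TransGen.single (r := fun x y : M => x ∈ y) h1).tail h2).tail hyp
  exact ⟨fun z => by
    obtain ⟨x, rfl⟩ := hE.surj z
    exact key x⟩

end Ext

/-! ### Natural numbers -/

section Num

variable {M : Type u} [Membership M M] [IsZFC M]

/-- The numerals of the model. -/
noncomputable def num : ℕ → M
  | 0 => SigB.em
  | n + 1 => sc (num n)

@[simp] theorem num_zero : (num 0 : M) = SigB.em := rfl

@[simp] theorem num_succ (n : ℕ) : (num (n + 1) : M) = sc (num n) := rfl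

theorem num_mem_om (n : ℕ) : (num n : M) ∈ (om : M) := by
  induction n with
  | zero => exact em_mem_om
  | succ n ih => exact sc_mem_om ih

theorem ord_num (n : ℕ) : Ord (num n : M) := ord_of_mem_om (num_mem_om n)

theorem mem_num {n : ℕ} {x : M} : x ∈ (num n : M) ↔ ∃ k, k < n ∧ x = num k := by
  induction n with
  | zero => simp
  | succ n ih =>
    rw [num_succ, mem_sc, ih]
    constructor
    · rintro (⟨k, hk, rfl⟩ | rfl)
      · exact ⟨k, hk.trans (Nat.lt_succ_self n), rfl⟩
      · exact ⟨n, Nat.lt_succ_self n, rfl⟩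
    · rintro ⟨k, hk, rfl⟩
      rcases Nat.lt_succ_iff_lt_or_eq.1 hk with h | rfl
      · exact Or.inl ⟨k, h, rfl⟩
      · exact Or.inr rfl

theorem num_inj {n m : ℕ} : (num n : M) = num m ↔ n = m := by
  refine ⟨fun h => ?_, fun h => by rw [h]⟩
  rcases lt_trichotomy n m with h1 | h1 | h1
  · have : (num n : M) ∈ (num m : M) := mem_num.2 ⟨n, h1, rfl⟩
    rw [h] at this
    exact (not_mem_self _ this).elim
  · exact h1
  · have : (num m : M) ∈ (num n : M) := mem_num.2 ⟨m, h1, rfl⟩
    rw [h] at this
    exact (not_mem_self _ this).elim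

theorem num_mem_num {n m : ℕ} : (num n : M) ∈ (num m : M) ↔ n < m := by
  rw [mem_num]
  constructor
  · rintro ⟨k, hk, h⟩
    rwa [num_inj.1 h]
  · exact fun h => ⟨n, h, rfl⟩

/-- In a well-founded model the natural numbers are the numerals. -/
theorem mem_om_iff (h : Wfm M) {x : M} : x ∈ (om : M) ↔ ∃ n, x = num n := by
  refine ⟨fun hx => ?_, ?_⟩
  · induction x using h.induction with
    | _ x ih =>
      rcases om_cases hx with rfl | ⟨m, hm, rfl⟩
      · exact ⟨0, rfl⟩
      · obtain ⟨n, rfl⟩ := ih m (mem_sc_self m) hm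
        exact ⟨n + 1, rfl⟩
  · rintro ⟨n, rfl⟩
    exact num_mem_om n

end Num

end Pool.Agent.WfM
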